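import Pool.Agent.helper42.CQ.SpecC

set_option autoImplicit false

namespace Pool.Agent.helper42.CQ

open Finset Pool.Agent.helper24.CG

theorem EX1 (hREL : REL_stmt) : EX1_stmt := by
  classical
  intro N M s K H z X hM hz hX
  rcases X.eq_empty_or_nonempty with rfl | hne
  · simp
  choose! A B h using hX
  obtain ⟨x0, hx0, hmax⟩ := Finset.exists_max_image X (fun x => (B x).length) hne
  obtain ⟨-, -, -, -, -, hmon, -, -, -, -, -, -⟩ := hREL N M K hM
  have hsub : X ⊆ cmp M K (B x0) z := by
    intro x hx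
    have h1 : B x <:+ H := ⟨A x, (h x hx).1.symm⟩
    have h2 : B x0 <:+ H := ⟨A x0, (h x0 hx0).1.symm⟩
    obtain ⟨t, ht⟩ := List.suffix_of_suffix_length_le h1 h2 (hmax x hx)
    have h3 := hmon t (B x) z (h x hx).2.2
    rwa [ht] at h3
  have hlt : (cmp M K (B x0) z).card < s := by
    by_contra hcon
    rw [not_lt] at hcon
    apply (h x0 hx0).2.1
    unfold Gs
    exact Finset.mem_filter.2 ⟨hz, Or.inr hcon⟩
  exact (Finset.card_le_card hsub).trans hlt.le

end Pool.Agent.helper42.CQ
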