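import Pool.Agent.helper42.CQ.SpecC

set_option autoImplicit false

namespace Pool.Agent.helper42.CQ

open Finset Pool.Agent.helper24.CG

/-- the union of the base and the components of the list -/
def GSA_un {V : Type} [DecidableEq V] : List (V × Finset V) → Finset V → Finset V
  | [], B => B
  | x :: xs, B => GSA_un xs (B ∪ x.2)

theorem GSA_mem {V : Type} [DecidableEq V] (u : V) : ∀ (xs : List (V × Finset V)) (B : Finset V),
    (u ∈ B ∨ ∃ x ∈ xs, u ∈ x.2) → u ∈ GSA_un xs B := by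
  intro xs
  induction xs with
  | nil =>
    intro B h
    rcases h with h | ⟨x, hx, _⟩
    · exact h
    · exact absurd hx List.not_mem_nil
  | cons x xs ih =>
    intro B h
    show u ∈ GSA_un xs (B ∪ x.2)
    apply ih
    rcases h with h | ⟨y, hy, hu⟩
    · exact Or.inl (Finset.mem_union_left _ h)
    · rcases List.mem_cons.1 hy with rfl | hy
      · exact Or.inl (Finset.mem_union_right _ hu)
      · exact Or.inr ⟨y, hy, hu⟩

theorem GSA_app {V : Type} [DecidableEq V] (l : ℝ) (f : V → V → ℝ) (y : V × Finset V) :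
    ∀ (xs : List (V × Finset V)) (B : Finset V),
      cst l f (xs ++ [y]) B = cst l f xs B + max 0 (l - ∑ u ∈ GSA_un xs B, f y.1 u) := by
  intro xs
  induction xs with
  | nil =>
    intro B
    show max 0 (l - ∑ u ∈ B, f y.1 u) + 0 = 0 + max 0 (l - ∑ u ∈ B, f y.1 u)
    ring
  | cons x xs ih =>
    intro B
    show max 0 (l - ∑ u ∈ B, f x.1 u) + cst l f (xs ++ [y]) (B ∪ x.2) =
      max 0 (l - ∑ u ∈ B, f x.1 u) + cst l f xs (B ∪ x.2) +
        max 0 (l - ∑ u ∈ GSA_un xs (B ∪ x.2), f y.1 u)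
    rw [ih]
    ring

theorem GSA_num {l X X' o : ℝ} (hl : 0 ≤ l) (hX : 0 ≤ X) (hX' : 0 ≤ X') (h : o ≤ X + X') :
    max 0 (l - X) + max 0 (l - X') ≤ 2 * l - min o l := by
  have h1 : min o l ≤ l := min_le_right _ _
  have h2 : min o l ≤ o := min_le_left _ _
  rcases le_total l X with hx | hx
  · rw [max_eq_left (by linarith : l - X ≤ 0)]
    have : max 0 (l - X') ≤ l := max_le hl (by linarith)
    linarith
  · rcases le_total l X' with hx' | hx'
    · rw [max_eq_left (by linarith : l - X' ≤ 0)]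
      have : max 0 (l - X) ≤ l := max_le hl (by linarith)
      linarith
    · rw [max_eq_right (by linarith : 0 ≤ l - X), max_eq_right (by linarith : 0 ≤ l - X')]
      linarith

theorem GSA_avg {V : Type} (C : Finset V) (hC : C.Nonempty) (α α' : V → ℝ) :
    ∃ v ∈ C, ∃ v' ∈ C, α v + α' v' ≤ 1 / (C.card : ℝ) * ∑ w ∈ C, (α w + α' w) := by
  obtain ⟨v, hv, hvm⟩ := Finset.exists_min_image C α hC
  obtain ⟨v', hv', hvm'⟩ := Finset.exists_min_image C α' hC
  refine ⟨v, hv, v', hv', ?_⟩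
  have hc : (0 : ℝ) < C.card := by exact_mod_cast hC.card_pos
  have h1 : (C.card : ℝ) * (α v + α' v') ≤ ∑ w ∈ C, (α w + α' w) := by
    have h2 := Finset.card_nsmul_le_sum C (fun w => α w + α' w) (α v + α' v')
      (fun w hw => add_le_add (hvm w hw) (hvm' w hw))
    rwa [nsmul_eq_mul] at h2
  rw [one_div, inv_mul_eq_div, le_div_iff₀ hc, mul_comm]
  exact h1

theorem GSA_aux (V : Type) [DecidableEq V] (l : ℝ) (f : V → V → ℝ) (G B' : Finset V)
    (hl : 0 ≤ l) (hf : ∀ u v, 0 ≤ f u v) : ∀ (Cs : List (Finset V)) (B : Finset V),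
    (∀ C ∈ Cs, C.Nonempty) → (∀ v ∈ G, v ∈ B ∨ v ∈ B' ∨ ∃ C ∈ Cs, v ∈ C) →
    ∃ xs ys : List (V × Finset V), (∀ x ∈ xs, x.1 ∈ x.2 ∧ x.2 ∈ Cs) ∧
      (∀ C ∈ Cs, ∃ x ∈ xs, x.2 = C) ∧ (∀ x ∈ ys, x.1 ∈ x.2 ∧ x.2 ∈ Cs) ∧
      (∀ C ∈ Cs, ∃ x ∈ ys, x.2 = C) ∧
      cst l f xs B + cst l f ys B' ≤
        (Cs.map fun C => 1 / (C.card : ℝ) *
          ∑ v ∈ C, (2 * l - min (∑ u ∈ G \ C, f v u) l)).sum := by
  intro Cs
  induction Cs with
  | nil =>
    intro B _ _
    refine ⟨[], [], fun x hx => absurd hx List.not_mem_nil, fun x hx => absurd hx List.not_mem_nil,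
      fun x hx => absurd hx List.not_mem_nil, fun x hx => absurd hx List.not_mem_nil, ?_⟩
    show (0 : ℝ) + 0 ≤ 0
    norm_num
  | cons C Cs ih =>
    intro B hne hG
    obtain ⟨xs, ys, h1, h2, h3, h4, h5⟩ := ih (B ∪ C) (fun D hD => hne D (List.mem_cons_of_mem _ hD))
      (fun v hv => by
        rcases hG v hv with h | h | ⟨D, hD, hvD⟩
        · exact Or.inl (Finset.mem_union_left _ h)
        · exact Or.inr (Or.inl h)
        · rcases List.mem_cons.1 hD with rfl | hD
          · exact Or.inl (Finset.mem_union_right _ hvD)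
          · exact Or.inr (Or.inr ⟨D, hD, hvD⟩))
    obtain ⟨v, hv, v', hv', hvv⟩ := GSA_avg C (hne C List.mem_cons_self)
      (fun v => max 0 (l - ∑ u ∈ B, f v u)) (fun v => max 0 (l - ∑ u ∈ GSA_un ys B', f v u))
    refine ⟨(v, C) :: xs, ys ++ [(v', C)], ?_, ?_, ?_, ?_, ?_⟩
    · intro x hx
      rcases List.mem_cons.1 hx with rfl | hx
      · exact ⟨hv, List.mem_cons_self⟩
      · exact ⟨(h1 x hx).1, List.mem_cons_of_mem _ (h1 x hx).2⟩
    · intro D hD
      rcases List.mem_cons.1 hD with rfl | hD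
      · exact ⟨(v, D), List.mem_cons_self, rfl⟩
      · obtain ⟨x, hx, hxD⟩ := h2 D hD
        exact ⟨x, List.mem_cons_of_mem _ hx, hxD⟩
    · intro x hx
      rcases List.mem_append.1 hx with hx | hx
      · exact ⟨(h3 x hx).1, List.mem_cons_of_mem _ (h3 x hx).2⟩
      · rw [List.mem_singleton] at hx
        subst hx
        exact ⟨hv', List.mem_cons_self⟩
    · intro D hD
      rcases List.mem_cons.1 hD with rfl | hD
      · exact ⟨(v', D), List.mem_append.2 (Or.inr (List.mem_singleton.2 rfl)), rfl⟩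
      · obtain ⟨x, hx, hxD⟩ := h4 D hD
        exact ⟨x, List.mem_append.2 (Or.inl hx), hxD⟩
    · rw [GSA_app, List.map_cons, List.sum_cons]
      have h6 : cst l f ((v, C) :: xs) B = max 0 (l - ∑ u ∈ B, f v u) + cst l f xs (B ∪ C) := rfl
      rw [h6]
      have h7 : ∀ w ∈ C, max 0 (l - ∑ u ∈ B, f w u) + max 0 (l - ∑ u ∈ GSA_un ys B', f w u) ≤
          2 * l - min (∑ u ∈ G \ C, f w u) l := by
        intro w _
        refine GSA_num hl (Finset.sum_nonneg fun u _ => hf w u) (Finset.sum_nonneg fun u _ => hf w u) ?_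
        have h8 : G \ C ⊆ B ∪ GSA_un ys B' := by
          intro u hu
          rw [Finset.mem_sdiff] at hu
          rw [Finset.mem_union]
          rcases hG u hu.1 with h | h | ⟨D, hD, huD⟩
          · exact Or.inl h
          · exact Or.inr (GSA_mem u ys B' (Or.inl h))
          · rcases List.mem_cons.1 hD with rfl | hD
            · exact absurd huD hu.2
            · obtain ⟨x, hx, hxD⟩ := h4 D hD
              exact Or.inr (GSA_mem u ys B' (Or.inr ⟨x, hx, by rw [hxD]; exact huD⟩))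
        calc ∑ u ∈ G \ C, f w u ≤ ∑ u ∈ B ∪ GSA_un ys B', f w u :=
              Finset.sum_le_sum_of_subset_of_nonneg h8 fun u _ _ => hf w u
          _ ≤ ∑ u ∈ B, f w u + ∑ u ∈ GSA_un ys B', f w u := by
              have h9 := Finset.sum_union_inter (s₁ := B) (s₂ := GSA_un ys B') (f := fun u => f w u)
              have h10 : 0 ≤ ∑ u ∈ B ∩ GSA_un ys B', f w u := Finset.sum_nonneg fun u _ => hf w u
              linarith
      have h8 : 1 / (C.card : ℝ) * ∑ w ∈ C, (max 0 (l - ∑ u ∈ B, f w u) +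
          max 0 (l - ∑ u ∈ GSA_un ys B', f w u)) ≤
          1 / (C.card : ℝ) * ∑ w ∈ C, (2 * l - min (∑ u ∈ G \ C, f w u) l) :=
        mul_le_mul_of_nonneg_left (Finset.sum_le_sum h7) (by positivity)
      have h9 := hvv.trans h8
      linarith

theorem GSA : GSA_stmt := by
  intro V _ l f G B B' Cs hl hf hne hG
  exact GSA_aux V l f G B' hl hf Cs B hne hG

end Pool.Agent.helper42.CQ
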